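import Pool.Agent.W323.PT.Stm

set_option autoImplicit false

/-! PT-Refl: the reflection. -/

namespace Pool.Agent.W899.PT

open Pool.Agent.W323.PT

/-- The reflection. -/
def rf (a : Pt) : Pt := (a.1, -a.2)

theorem o_rf (a b c : Pt) : o (rf a) (rf b) (rf c) = -o a b c := by
  unfold o rf
  ring

theorem o_sw (a b c : Pt) : o a b c = -o a c b := by
  unfold o
  ring

theorem X_rf (a b c d : Pt) : X (rf a) (rf b) (rf c) (rf d) = rf (X a b c d) := by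
  have h : o (rf c) (rf d) (rf a) / (o (rf c) (rf d) (rf a) - o (rf c) (rf d) (rf b)) =
      o c d a / (o c d a - o c d b) := by
    rw [o_rf, o_rf]
    have e : -o c d a - -o c d b = -(o c d a - o c d b) := by ring
    rw [e, neg_div_neg_eq]
  unfold X
  rw [h]
  apply Prod.ext
  · simp only [rf, Prod.fst_add, Prod.smul_fst, Prod.fst_sub]
  · simp only [rf, Prod.snd_add, Prod.smul_snd, Prod.snd_sub, smul_eq_mul]
    ring

theorem pos_sw {a b c : Pt} (h : 0 < o (rf a) (rf b) (rf c)) : 0 < o a c b := by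
  rw [o_rf, o_sw, neg_neg] at h
  exact h

theorem Pat_rf {c r1 r2 r3 r4 x y z w : Pt}
    (h : Pat (rf c) (rf r1) (rf r2) (rf r3) (rf r4) (rf x) (rf y) (rf z) (rf w)) :
    Pat c r4 r3 r2 r1 y x z w := by
  obtain ⟨⟨f1, f2, f3, f4, f5, f6⟩, ⟨b1, b2⟩, ⟨b3, b4⟩, ⟨o1, o2⟩, ⟨o3, o4⟩⟩ := h
  exact ⟨⟨pos_sw f6, pos_sw f5, pos_sw f3, pos_sw f4, pos_sw f2, pos_sw f1⟩,
    ⟨pos_sw b4, pos_sw b3⟩, ⟨pos_sw b2, pos_sw b1⟩, ⟨pos_sw o2, pos_sw o1⟩,
    ⟨pos_sw o4, pos_sw o3⟩⟩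

/-- The rearrangement of the entries. -/
def rho : Fin 8 → Fin 8 := ![0, 1, 2, 3, 7, 6, 5, 4]

theorem refl : S_Refl := by
  intro m P h
  obtain ⟨θ, x, y, z, h1, hx, hy, hz, hxy, hxz, hyz, hne, hpat⟩ := h
  refine ⟨fun l => θ (rho l), y, x, z, fun l => h1 _, hy, hx, hz, hxy.symm, hyz, hxz,
    fun l => ⟨(hne _).2.1, (hne _).1, (hne _).2.2⟩, ?_⟩
  have e : ∀ u, pt (fun b i => ((P b i).1, -(P b i).2)) u = rf (pt P u) := fun _ => rfl
  simp only [e, X_rf] at hpat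
  exact Pat_rf hpat

end Pool.Agent.W899.PT
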